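import Mathlib

/-! Linear algebra for antichains of bounded diameter: relations between the sets of one level. -/

set_option autoImplicit false

namespace Pool.Agent.H60.MB

open Finset

variable {n : ℕ}

/-- The weights `w` on the `m`-sets are orthogonal to all the `s`-sets. -/
def Rel (s m : ℕ) (w : Finset (Fin n) → ℚ) : Prop :=
  ∀ S : Finset (Fin n), S.card = s →
    ∑ X ∈ powersetCard m (univ : Finset (Fin n)), (if S ⊆ X then w X else 0) = 0

theorem rel_down {s m : ℕ} (hsm : s ≤ m) {w : Finset (Fin n) → ℚ} (h : Rel s m w) :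
    ∀ j : ℕ, ∀ T : Finset (Fin n), T.card + j = s →
      ∑ X ∈ powersetCard m (univ : Finset (Fin n)), (if T ⊆ X then w X else 0) = 0 := by
  intro j
  induction j with
  | zero => intro T hT; exact h T (by omega)
  | succ j ih =>
    intro T hT
    have h1 : ∑ x ∈ Tᶜ, ∑ X ∈ powersetCard m (univ : Finset (Fin n)),
        (if insert x T ⊆ X then w X else 0) = 0 := by
      apply sum_eq_zero
      intro x hx
      apply ih
      rw [card_insert_of_notMem (by simpa using hx)]
      omega
    rw [sum_comm] at h1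
    have h2 : ∀ X ∈ powersetCard m (univ : Finset (Fin n)),
        ∑ x ∈ Tᶜ, (if insert x T ⊆ X then w X else 0) =
          ((m - T.card : ℕ) : ℚ) * (if T ⊆ X then w X else 0) := by
      intro X hX
      rw [mem_powersetCard] at hX
      by_cases hTX : T ⊆ X
      · have h3 : ∀ x ∈ Tᶜ, (if insert x T ⊆ X then w X else 0) = if x ∈ X then w X else 0 := by
          intro x _
          have : insert x T ⊆ X ↔ x ∈ X := by
            rw [insert_subset_iff]
            exact ⟨fun h => h.1, fun h => ⟨h, hTX⟩⟩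
          simp only [this]
        rw [sum_congr rfl h3, ← sum_filter, sum_const, nsmul_eq_mul, if_pos hTX]
        have h4 : filter (fun x => x ∈ X) Tᶜ = X \ T := by
          ext x
          simp only [mem_filter, mem_compl, mem_sdiff]
          tauto
        rw [h4, card_sdiff_of_subset hTX, hX.2]
      · rw [if_neg hTX, mul_zero]
        apply sum_eq_zero
        intro x _
        rw [if_neg]
        intro h
        exact hTX ((subset_insert x T).trans h)
    rw [sum_congr rfl h2, ← mul_sum] at h1
    rcases mul_eq_zero.1 h1 with h3 | h3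
    · have : m - T.card = 0 := by exact_mod_cast h3
      omega
    · exact h3

theorem choose_inter (D X : Finset (Fin n)) (j : ℕ) :
    ((X ∩ D).card.choose j : ℚ) = ∑ T ∈ powersetCard j D, (if T ⊆ X then 1 else 0) := by
  have h : (powersetCard j D).filter (fun T => T ⊆ X) = powersetCard j (X ∩ D) := by
    ext T
    simp only [mem_filter, mem_powersetCard, subset_inter_iff]
    tauto
  rw [Finset.sum_boole, h, card_powersetCard]

/-- The value of the binomial coefficient with a possibly negative upper argument. -/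
def pv (s : ℕ) (z : ℤ) : ℚ := ((Ring.choose z s : ℤ) : ℚ)

theorem rel_eval {s m : ℕ} (hsm : s ≤ m) {w : Finset (Fin n) → ℚ} (h : Rel s m w)
    (D : Finset (Fin n)) (r : ℤ) :
    ∑ X ∈ powersetCard m (univ : Finset (Fin n)), w X * pv s (r + ((X ∩ D).card : ℤ)) = 0 := by
  have e : ∀ X : Finset (Fin n), pv s (r + ((X ∩ D).card : ℤ)) =
      ∑ ij ∈ antidiagonal s, ((Ring.choose r ij.1 : ℤ) : ℚ) * ((X ∩ D).card.choose ij.2 : ℚ) := by
    intro X
    unfold pv
    rw [Ring.add_choose_eq _ (Commute.all _ _)]
    push_cast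
    refine sum_congr rfl fun ij _ => ?_
    rw [Ring.choose_natCast]
    push_cast
    rfl
  simp_rw [e, mul_sum]
  rw [sum_comm]
  apply sum_eq_zero
  intro ij hij
  rw [HasAntidiagonal.mem_antidiagonal] at hij
  simp_rw [choose_inter]
  have h2 : ∀ X ∈ powersetCard m (univ : Finset (Fin n)),
      w X * (((Ring.choose r ij.1 : ℤ) : ℚ) * ∑ T ∈ powersetCard ij.2 D, (if T ⊆ X then 1 else 0)) =
      ((Ring.choose r ij.1 : ℤ) : ℚ) * ∑ T ∈ powersetCard ij.2 D, (if T ⊆ X then w X else 0) := by
    intro X _
    rw [mul_left_comm, mul_sum]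
    congr 1
    refine sum_congr rfl fun T _ => ?_
    rw [mul_ite, mul_one, mul_zero]
  rw [sum_congr rfl h2, ← mul_sum, sum_comm]
  rw [sum_eq_zero, mul_zero]
  intro T hT
  rw [mem_powersetCard] at hT
  exact rel_down hsm h ij.1 T (by omega)

/-- `q s j` is `1` for `j = 0` and `0` for `1 ≤ j ≤ s`. -/
def q (s j : ℕ) : ℚ := pv s ((s : ℤ) - (j : ℤ))

theorem q_of_le {s j : ℕ} (h : j ≤ s) : q s j = if j = 0 then 1 else 0 := by
  unfold q pv
  have e : (s : ℤ) - (j : ℤ) = ((s - j : ℕ) : ℤ) := by omega
  rw [e, Ring.choose_natCast]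
  by_cases hj : j = 0
  · rw [if_pos hj, hj, Nat.sub_zero, Nat.choose_self]
    norm_num
  · rw [if_neg hj, Nat.choose_eq_zero_of_lt (by omega)]
    norm_num

theorem evalX {s m : ℕ} (hsm : s ≤ m) {w : Finset (Fin n) → ℚ} (h : Rel s m w)
    (D : Finset (Fin n)) :
    ∑ X ∈ powersetCard m (univ : Finset (Fin n)), w X * q s (X \ D).card = 0 := by
  have h1 := rel_eval hsm h D ((s : ℤ) - m)
  rw [← h1]
  refine sum_congr rfl fun X hX => ?_
  rw [mem_powersetCard] at hX
  unfold q
  congr 2
  have := card_sdiff_add_card_inter X D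
  have := hX.2
  omega

theorem evalD {s m : ℕ} (hsm : s ≤ m) {w : Finset (Fin n) → ℚ} (h : Rel s m w)
    (D : Finset (Fin n)) :
    ∑ X ∈ powersetCard m (univ : Finset (Fin n)), w X * q s (D \ X).card = 0 := by
  have h1 := rel_eval hsm h D ((s : ℤ) - D.card)
  rw [← h1]
  refine sum_congr rfl fun X hX => ?_
  unfold q
  congr 2
  have := card_sdiff_add_card_inter D X
  rw [inter_comm D X] at this
  omega

theorem gram {ι κ : Type} (G : Finset ι) (lev : Finset κ) (e : ι → κ → ℚ) (l : ι → ℚ)
    (h : ∀ C ∈ G, ∑ X ∈ lev, (∑ C' ∈ G, l C' * e C' X) * e C X = 0) :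
    ∀ X ∈ lev, ∑ C ∈ G, l C * e C X = 0 := by
  have h1 : ∑ X ∈ lev, (∑ C ∈ G, l C * e C X) ^ 2 = 0 := by
    have h2 : ∀ X ∈ lev, (∑ C ∈ G, l C * e C X) ^ 2 =
        ∑ C ∈ G, l C * ((∑ C' ∈ G, l C' * e C' X) * e C X) := by
      intro X _
      rw [sq, mul_sum]
      refine sum_congr rfl fun C _ => ?_
      ring
    rw [sum_congr rfl h2, sum_comm]
    apply sum_eq_zero
    intro C hC
    rw [← mul_sum, h C hC, mul_zero]
  intro X hX
  have h2 := (sum_eq_zero_iff_of_nonneg (fun X _ => sq_nonneg _)).1 h1 X hX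
  exact pow_eq_zero_iff (two_ne_zero) |>.1 h2

theorem card_between (S C : Finset (Fin n)) (h : S ⊆ C) (a : ℕ) (ha : S.card ≤ a) :
    ((powersetCard a C).filter (fun X => S ⊆ X)).card = (C.card - S.card).choose (a - S.card) := by
  rw [← card_sdiff_of_subset h, ← card_powersetCard]
  refine card_bij' (fun X _ => X \ S) (fun Y _ => Y ∪ S) ?_ ?_ ?_ ?_
  · intro X hX
    rw [mem_filter, mem_powersetCard] at hX
    rw [mem_powersetCard]
    exact ⟨sdiff_subset_sdiff hX.1.1 (Subset.refl _), by
      rw [card_sdiff_of_subset hX.2, hX.1.2]⟩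
  · intro Y hY
    rw [mem_powersetCard] at hY
    rw [mem_filter, mem_powersetCard]
    have hd : Disjoint Y S := by
      rw [disjoint_left]
      intro x hx
      exact (mem_sdiff.1 (hY.1 hx)).2
    refine ⟨⟨union_subset (hY.1.trans sdiff_subset) h, ?_⟩, subset_union_right⟩
    rw [card_union_of_disjoint hd, hY.2]
    omega
  · intro X hX
    rw [mem_filter] at hX
    exact sdiff_union_of_subset hX.2
  · intro Y hY
    rw [mem_powersetCard] at hY
    have hd : Disjoint Y S := by
      rw [disjoint_left]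
      intro x hx
      exact (mem_sdiff.1 (hY.1 hx)).2
    ext x
    simp only [mem_sdiff, mem_union]
    constructor
    · rintro ⟨h1 | h1, h2⟩
      · exact h1
      · exact absurd h1 h2
    · intro h1
      exact ⟨Or.inl h1, fun h2 => disjoint_left.1 hd h1 h2⟩

theorem sum_between (S C : Finset (Fin n)) (a : ℕ) (ha : S.card ≤ a) :
    ∑ X ∈ powersetCard a (univ : Finset (Fin n)), (if S ⊆ X then (if X ⊆ C then (1 : ℚ) else 0) else 0)
      = if S ⊆ C then (((C.card - S.card).choose (a - S.card) : ℕ) : ℚ) else 0 := by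
  by_cases h : S ⊆ C
  · rw [if_pos h, ← card_between S C h a ha, ← sum_boole, ← sum_subset (powersetCard_mono (subset_univ C) : powersetCard a C ⊆ _)]
    · refine sum_congr rfl fun X hX => ?_
      rw [mem_powersetCard] at hX
      rw [if_pos hX.1]
    · intro X hX hXC
      rw [mem_powersetCard] at hX hXC
      have : ¬ X ⊆ C := fun h2 => hXC ⟨h2, hX.2⟩
      rw [if_neg this, ite_self]
  · rw [if_neg h]
    apply sum_eq_zero
    intro X _
    by_cases h1 : S ⊆ X
    · rw [if_pos h1, if_neg (fun h2 => h (h1.trans h2))]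
    · rw [if_neg h1]

theorem card_sdiff_le' {s : ℕ} (X : Finset (Fin n)) {C : Finset (Fin n)} (h : n ≤ C.card + s) :
    (X \ C).card ≤ s := by
  have h1 : X \ C ⊆ Cᶜ := by
    intro x hx
    rw [mem_compl]
    exact (mem_sdiff.1 hx).2
  have h2 := card_le_card h1
  rw [card_compl, Fintype.card_fin] at h2
  omega

/-- Antichains all whose differences `C \ C'` (unless `|C'| ≥ n - s`) have at most `s` elements: the
vectors of the `s`-subsets are linearly independent. -/
theorem indep {s : ℕ} : ∀ (N : ℕ) (G : Finset (Finset (Fin n))) (l : Finset (Fin n) → ℚ),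
    G.card = N → (∀ C ∈ G, s ≤ C.card) → (∀ C ∈ G, ∀ C' ∈ G, (C \ C').card ≤ s ∨ n ≤ C'.card + s) →
    (∀ C ∈ G, ∀ C' ∈ G, C ⊆ C' → C = C') →
    (∀ S : Finset (Fin n), S.card = s → ∑ C ∈ G, (if S ⊆ C then l C else 0) = 0) →
    ∀ C ∈ G, l C = 0 := by
  intro N
  induction N with
  | zero =>
    intro G l hN _ _ _ _ C hC
    rw [card_eq_zero] at hN
    rw [hN] at hC
    exact absurd hC (notMem_empty C)
  | succ N ih =>
    intro G l hN hsz hdf hac hrel
    have hne : G.Nonempty := by
      rw [← card_pos]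
      omega
    obtain ⟨A, hA, hmin⟩ := exists_min_image G card hne
    set a := A.card with ha
    have hsa : s ≤ a := hsz A hA
    have hcb : ∀ C ∈ G, (((C.card - s).choose (a - s) : ℕ) : ℚ) ≠ 0 := by
      intro C hC
      have h1 := hmin C hC
      have h2 : 0 < (C.card - s).choose (a - s) := Nat.choose_pos (by omega)
      exact_mod_cast h2.ne'
    obtain ⟨l2, hl2⟩ : ∃ l2 : Finset (Fin n) → ℚ,
        l2 = fun C => l C / (((C.card - s).choose (a - s) : ℕ) : ℚ) := ⟨_, rfl⟩
    have hl : ∀ C ∈ G, l2 C * (((C.card - s).choose (a - s) : ℕ) : ℚ) = l C := by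
      intro C hC
      rw [hl2]
      exact div_mul_cancel₀ _ (hcb C hC)
    have hR : Rel s a (fun X => ∑ C ∈ G, l2 C * (if X ⊆ C then (1 : ℚ) else 0)) := by
      intro S hS
      have h1 : ∀ X ∈ powersetCard a (univ : Finset (Fin n)),
          (if S ⊆ X then ∑ C ∈ G, l2 C * (if X ⊆ C then (1 : ℚ) else 0) else 0) =
          ∑ C ∈ G, l2 C * (if S ⊆ X then (if X ⊆ C then (1 : ℚ) else 0) else 0) := by
        intro X _
        by_cases h2 : S ⊆ X
        · simp only [if_pos h2]
        · simp only [if_neg h2, mul_zero, sum_const_zero]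
      rw [sum_congr rfl h1, sum_comm]
      refine Eq.trans ?_ (hrel S hS)
      refine sum_congr rfl fun C hC => ?_
      rw [← mul_sum, sum_between S C a (by omega), hS]
      by_cases h2 : S ⊆ C
      · rw [if_pos h2, if_pos h2, hl C hC]
      · rw [if_neg h2, if_neg h2, mul_zero]
    have hG := gram G (powersetCard a (univ : Finset (Fin n)))
      (fun C X => if X ⊆ C then (1 : ℚ) else 0) l2 (by
        intro C hC
        refine Eq.trans ?_ (evalX hsa hR C)
        refine sum_congr rfl fun X _ => ?_
        rw [sum_mul, sum_mul]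
        refine sum_congr rfl fun C' hC' => ?_
        by_cases h2 : X ⊆ C'
        · have h3 : (X \ C).card ≤ s := by
            rcases hdf C' hC' C hC with h5 | h5
            · exact (card_le_card (sdiff_subset_sdiff h2 (Subset.refl _))).trans h5
            · exact card_sdiff_le' X h5
          rw [q_of_le h3]
          congr 1
          by_cases h4 : X ⊆ C
          · rw [if_pos h4, if_pos (by rw [card_eq_zero, sdiff_eq_empty_iff_subset]; exact h4)]
          · rw [if_neg h4, if_neg (by rw [card_eq_zero, sdiff_eq_empty_iff_subset]; exact h4)]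
        · simp only [if_neg h2, mul_zero, zero_mul])
    have h3 := hG A (by
      rw [mem_powersetCard]
      exact ⟨subset_univ _, rfl⟩)
    have h4 : l2 A = 0 := by
      rw [← h3, sum_eq_single A]
      · rw [if_pos (Subset.refl _), mul_one]
      · intro C hC hCA
        rw [if_neg (fun h5 => hCA (hac A hA C hC h5).symm), mul_zero]
      · intro h5
        exact absurd hA h5
    have h5 : l A = 0 := by
      rw [← hl A hA, h4, zero_mul]
    intro C hC
    by_cases hCA : C = A
    · rw [hCA, h5]
    · refine ih (G.erase A) l ?_ ?_ ?_ ?_ ?_ C (mem_erase.2 ⟨hCA, hC⟩)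
      · rw [card_erase_of_mem hA]
        omega
      · intro C hC
        exact hsz C (mem_of_mem_erase hC)
      · intro C hC C' hC'
        exact hdf C (mem_of_mem_erase hC) C' (mem_of_mem_erase hC')
      · intro C hC C' hC'
        exact hac C (mem_of_mem_erase hC) C' (mem_of_mem_erase hC')
      · intro S hS
        have h6 := hrel S hS
        rw [← add_sum_erase G _ hA, h5, ite_self, zero_add] at h6
        exact h6

end Pool.Agent.H60.MB
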