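import Pool.Agent.H60.MB.Fin

/-! Even diameter: no restriction on the middle level. -/

set_option autoImplicit false

namespace Pool.Agent.H60.MB

open Finset

variable {n : ℕ}

/-- five sizes -/
theorem five (n k m a c : ℕ) (hkn : k ≤ n) (hE : Even (n - k))
    (F : Finset (Finset (Fin n)))
    (hF : IsAntichain (· ⊆ ·) (F : Set (Finset (Fin n))))
    (hd : ∀ A ∈ F, ∀ B ∈ F, (symmDiff A B).card ≤ n - k)
    (hlow : (∀ A ∈ F, A.card < m → A.card ≤ (n - k) / 2) ∨
      (∀ A ∈ F, A.card < m → A.card = a ∨ A.card = a + 1))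
    (hhigh : (∀ C ∈ F, m < C.card → n ≤ C.card + (n - k) / 2) ∨
      (∀ C ∈ F, m < C.card → C.card = c ∨ C.card = c + 1)) :
    F.card ≤ n.choose ((n + k + 1) / 2) := by
  have hlow' : (∀ A ∈ F, A.card < m → A.card ≤ (n - k) / 2) ∨
      (∀ A ∈ F, A.card < m → A.card = a ∨ (Even (n - k) ∧ A.card = a + 1)) :=
    hlow.imp_right fun h A hA h1 => (h A hA h1).imp_right fun h2 => ⟨hE, h2⟩
  have hhigh' : (∀ C ∈ F, m < C.card → n ≤ C.card + (n - k) / 2) ∨
      (∀ C ∈ F, m < C.card → C.card = c ∨ (Even (n - k) ∧ C.card = c + 1)) :=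
    hhigh.imp_right fun h A hA h1 => (h A hA h1).imp_right fun h2 => ⟨hE, h2⟩
  rcases Nat.lt_or_ge m ((n - k) / 2) with h1 | h1
  · refine general n k ((n - k) / 2) a c hkn le_rfl (by omega) F hF hd ?_ ?_
    · left
      intro A _ hA
      omega
    · exact hhigh'.imp (fun h C hC h2 => h C hC (by omega)) (fun h C hC h2 => h C hC (by omega))
  rcases Nat.lt_or_ge n (m + (n - k) / 2) with h2 | h2
  · refine general n k (n - (n - k) / 2) a c hkn (by omega) (by omega) F hF hd ?_ ?_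
    · exact hlow'.imp (fun h C hC h2 => h C hC (by omega)) (fun h C hC h2 => h C hC (by omega))
    · left
      intro A _ hA
      omega
  exact general n k m a c hkn h1 h2 F hF hd hlow' hhigh'

/-- diameter six -/
theorem six (n k : ℕ) (hk : 1 ≤ k) (hkn : k ≤ n) (h : n - k = 6)
    (F : Finset (Finset (Fin n)))
    (hF : IsAntichain (· ⊆ ·) (F : Set (Finset (Fin n))))
    (hd : ∀ A ∈ F, ∀ B ∈ F, (symmDiff A B).card ≤ n - k) :
    F.card ≤ n.choose ((n + k + 1) / 2) :=
  small_d n k hk hkn (Or.inr h) F hF hd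

end Pool.Agent.H60.MB
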