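import Pool.Agent.H60.MB.Main

/-! Antichains of bounded diameter. -/

set_option autoImplicit false

namespace Pool.Agent.H60.MB

open Finset

variable {n : ℕ}

theorem facts {d : ℕ} {A B : Finset (Fin n)} (h : (symmDiff A B).card ≤ d) :
    (A \ B).card + (B \ A).card ≤ d ∧ (A \ B).card + B.card = (B \ A).card + A.card := by
  constructor
  · have e : symmDiff A B = (A \ B) ∪ (B \ A) := rfl
    rw [e, card_union_of_disjoint (disjoint_sdiff_sdiff)] at h
    exact h
  · have h1 := card_sdiff_add_card_inter A B
    have h2 := card_sdiff_add_card_inter B A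
    rw [inter_comm B A] at h2
    omega

theorem choose_eq {k : ℕ} (hk : k ≤ n) : n.choose ((n + k + 1) / 2) = n.choose ((n - k) / 2) := by
  apply Nat.choose_symm_of_eq_add
  omega

/-- The general inequality. -/
theorem general (n k m a c : ℕ) (hkn : k ≤ n) (hm1 : (n - k) / 2 ≤ m)
    (hm2 : m + (n - k) / 2 ≤ n) (F : Finset (Finset (Fin n)))
    (hF : IsAntichain (· ⊆ ·) (F : Set (Finset (Fin n))))
    (hd : ∀ A ∈ F, ∀ B ∈ F, (symmDiff A B).card ≤ n - k)
    (hlow : (∀ A ∈ F, A.card < m → A.card ≤ (n - k) / 2) ∨
      (∀ A ∈ F, A.card < m → A.card = a ∨ (Even (n - k) ∧ A.card = a + 1)))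
    (hhigh : (∀ C ∈ F, m < C.card → n ≤ C.card + (n - k) / 2) ∨
      (∀ C ∈ F, m < C.card → C.card = c ∨ (Even (n - k) ∧ C.card = c + 1))) :
    F.card ≤ n.choose ((n + k + 1) / 2) := by
  rw [choose_eq hkn]
  obtain ⟨s, hs⟩ : ∃ s, s = (n - k) / 2 := ⟨_, rfl⟩
  rw [← hs] at hm1 hm2 hlow hhigh ⊢
  have hpar : Even (n - k) → n - k = 2 * s := by
    rintro ⟨r, hr⟩
    omega
  have hle : n - k ≤ 2 * s + 1 := by omega
  refine bound hm1 hm2 F ?_ ?_ ?_ ?_ ?_
  · intro A hA B hB hAB
    exact hF.eq hA hB hAB
  · intro A hA A' hA' h1 h2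
    obtain ⟨f1, f2⟩ := facts (hd A hA A' hA')
    rcases hlow with hlow | hlow
    · exact Or.inr (hlow A hA h1)
    · left
      rcases hlow A hA h1 with h3 | ⟨h3, h4⟩ <;> rcases hlow A' hA' h2 with h5 | ⟨h5, h6⟩
      · omega
      · have := hpar h5
        omega
      · have := hpar h3
        omega
      · omega
  · intro C hC C' hC' h1 h2
    obtain ⟨f1, f2⟩ := facts (hd C hC C' hC')
    rcases hhigh with hhigh | hhigh
    · exact Or.inr (hhigh C' hC' h2)
    · left
      rcases hhigh C hC h1 with h3 | ⟨h3, h4⟩ <;> rcases hhigh C' hC' h2 with h5 | ⟨h5, h6⟩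
      · omega
      · have := hpar h5
        omega
      · have := hpar h3
        omega
      · omega
  · intro A hA B hB h1 _
    obtain ⟨f1, f2⟩ := facts (hd A hA B hB)
    omega
  · rcases hlow with hlow | hlow
    · right
      intro A hA C hC h1 h2
      exact Or.inr (hlow A hA h1)
    rcases hhigh with hhigh | hhigh
    · left
      intro A hA C hC h1 h2
      exact Or.inr (hhigh C hC h2)
    by_cases hE : Even (n - k)
    · have h0 := hpar hE
      rcases Nat.le_total (2 * m) (a + c + 1) with h | h
      · left
        intro A hA C hC h1 h2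
        obtain ⟨f1, f2⟩ := facts (hd A hA C hC)
        left
        rcases hlow A hA h1 with h3 | ⟨_, h3⟩ <;> rcases hhigh C hC h2 with h4 | ⟨_, h4⟩ <;> omega
      · right
        intro A hA C hC h1 h2
        obtain ⟨f1, f2⟩ := facts (hd A hA C hC)
        left
        rcases hlow A hA h1 with h3 | ⟨_, h3⟩ <;> rcases hhigh C hC h2 with h4 | ⟨_, h4⟩ <;> omega
    · rcases Nat.le_total (2 * m) (a + c) with h | h
      · left
        intro A hA C hC h1 h2
        obtain ⟨f1, f2⟩ := facts (hd A hA C hC)
        left
        have h3 := (hlow A hA h1).resolve_right (fun h => hE h.1)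
        have h4 := (hhigh C hC h2).resolve_right (fun h => hE h.1)
        omega
      · right
        intro A hA C hC h1 h2
        obtain ⟨f1, f2⟩ := facts (hd A hA C hC)
        left
        have h3 := (hlow A hA h1).resolve_right (fun h => hE h.1)
        have h4 := (hhigh C hC h2).resolve_right (fun h => hE h.1)
        omega

/-- `k = 1`, and `k = 2` for even `n`. -/
theorem small_k (n k : ℕ) (h : k = 1 ∨ (k = 2 ∧ Even n)) (hkn : k ≤ n)
    (F : Finset (Finset (Fin n)))
    (hF : IsAntichain (· ⊆ ·) (F : Set (Finset (Fin n))))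
    (hd : ∀ A ∈ F, ∀ B ∈ F, (symmDiff A B).card ≤ n - k) :
    F.card ≤ n.choose ((n + k + 1) / 2) := by
  have h1 : (n - k) / 2 * 2 + 2 ≥ n := by
    rcases h with rfl | ⟨rfl, r, hr⟩
    · omega
    · omega
  refine general n k (n / 2) 0 0 hkn (by omega) (by omega) F hF hd ?_ ?_
  · left
    intro A _ hA
    omega
  · left
    intro C _ hC
    omega

/-- At most two sizes. -/
theorem two_sizes (n k a c : ℕ) (hkn : k ≤ n) (hac : a ≤ c)
    (F : Finset (Finset (Fin n)))
    (hF : IsAntichain (· ⊆ ·) (F : Set (Finset (Fin n))))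
    (hd : ∀ A ∈ F, ∀ B ∈ F, (symmDiff A B).card ≤ n - k)
    (hs : ∀ A ∈ F, A.card = a ∨ A.card = c) :
    F.card ≤ n.choose ((n + k + 1) / 2) := by
  obtain ⟨s, hs'⟩ : ∃ s, s = (n - k) / 2 := ⟨_, rfl⟩
  by_cases h1 : c < s
  · refine general n k s 0 0 hkn (by omega) (by omega) F hF hd ?_ ?_
    · left
      intro A _ hA
      omega
    · left
      intro C hC hC2
      have := hs C hC
      omega
  by_cases h2 : n - s < a
  · refine general n k (n - s) 0 0 hkn (by omega) (by omega) F hF hd ?_ ?_
    · left
      intro A hA hA2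
      have := hs A hA
      omega
    · left
      intro C _ hC
      omega
  · have hm : max a s + s ≤ n := by
      rcases Nat.le_total a s with h | h
      · rw [max_eq_right h]
        omega
      · rw [max_eq_left h]
        omega
    have h3 := le_max_left a s
    have h4 := le_max_right a s
    have h5 : max a s ≤ c := max_le hac (by omega)
    refine general n k (max a s) a c hkn (by omega) (by omega) F hF hd ?_ ?_
    · right
      intro A hA hA2
      have := hs A hA
      omega
    · right
      intro C hC hC2
      have := hs C hC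
      omega

/-- small diameter -/
theorem small_d (n k : ℕ) (hk : 1 ≤ k) (hkn : k ≤ n) (h : n - k ≤ 4 ∨ n - k = 6)
    (F : Finset (Finset (Fin n)))
    (hF : IsAntichain (· ⊆ ·) (F : Set (Finset (Fin n))))
    (hd : ∀ A ∈ F, ∀ B ∈ F, (symmDiff A B).card ≤ n - k) :
    F.card ≤ n.choose ((n + k + 1) / 2) := by
  rcases Nat.lt_or_ge 1 F.card with hF1 | hF1
  swap
  · rw [choose_eq hkn]
    have : 0 < n.choose ((n - k) / 2) := Nat.choose_pos (by omega)
    omega
  obtain ⟨A1, hA1, B1, hB1, hAB⟩ := one_lt_card.1 hF1
  have hne : F.Nonempty := ⟨A1, hA1⟩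
  have hpair : ∀ A ∈ F, ∀ B ∈ F, A ≠ B → 1 ≤ (A \ B).card := fun A hA B hB h =>
    one_le_sdiff (fun h2 => h (hF.eq hA hB h2))
  have hother : ∀ A ∈ F, ∃ B ∈ F, A ≠ B := by
    intro A hA
    by_cases h : A = A1
    · exact ⟨B1, hB1, by rw [h]; exact hAB⟩
    · exact ⟨A1, hA1, h⟩
  have hbnd : ∀ A ∈ F, 1 ≤ A.card ∧ A.card + 1 ≤ n ∧ 2 ≤ n - k := by
    intro A hA
    obtain ⟨B, hB, hne⟩ := hother A hA
    have h1 := hpair A hA B hB hne
    have h2 := hpair B hB A hA hne.symm
    obtain ⟨f1, f2⟩ := facts (hd A hA B hB)
    have h3 : B.card ≤ n := by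
      have := card_le_univ B
      rwa [Fintype.card_fin] at this
    have h4 : (A \ B).card ≤ A.card := card_le_card sdiff_subset
    have h5 : (B ∪ A).card ≤ n := by
      have := card_le_univ (B ∪ A)
      rwa [Fintype.card_fin] at this
    have h6 : (B ∪ A).card = (B \ A).card + A.card := by
      have e : B ∪ A = (B \ A) ∪ A := (sdiff_union_self_eq_union).symm
      rw [e, card_union_of_disjoint sdiff_disjoint]
    omega
  have hgap : ∀ A ∈ F, ∀ B ∈ F, A.card ≤ B.card + (n - k - 2) := by
    intro A hA B hB
    by_cases h : A = B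
    · rw [h]
      omega
    · have h1 := hpair A hA B hB h
      have h2 := hpair B hB A hA (Ne.symm h)
      obtain ⟨f1, f2⟩ := facts (hd A hA B hB)
      omega
  obtain ⟨A, hA, hAmax⟩ := exists_max_image F card hne
  have hA' := hbnd A hA
  have hgA : ∀ B ∈ F, A.card ≤ B.card + (n - k - 2) ∧ B.card ≤ A.card ∧ 1 ≤ B.card :=
    fun B hB => ⟨hgap A hA B hB, hAmax B hB, (hbnd B hB).1⟩
  rcases h with h | h
  · have h5 : n - k = 2 ∨ n - k = 3 ∨ n - k = 4 := by omega
    rcases h5 with h5 | h5 | h5
    · refine general n k A.card 0 0 hkn (by omega) (by omega) F hF hd ?_ ?_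
      · left
        intro B hB h6
        have := hgA B hB
        omega
      · left
        intro B hB h6
        have := hgA B hB
        omega
    · refine general n k A.card (A.card - 1) 0 hkn (by omega) (by omega) F hF hd ?_ ?_
      · right
        intro B hB h6
        have := hgA B hB
        omega
      · left
        intro B hB h6
        have := hgA B hB
        omega
    · rcases Nat.lt_or_ge A.card 3 with h6 | h6
      · refine general n k 2 1 0 hkn (by omega) (by omega) F hF hd ?_ ?_
        · left
          intro B hB h7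
          omega
        · left
          intro B hB h7
          have := hgA B hB
          omega
      · refine general n k (A.card - 1) (A.card - 2) A.card hkn (by omega) (by omega) F hF hd ?_ ?_
        · right
          intro B hB h7
          have := hgA B hB
          omega
        · right
          intro B hB h7
          have := hgA B hB
          omega
  · have hE : Even (n - k) := ⟨3, by omega⟩
    rcases Nat.lt_or_ge A.card 5 with h6 | h6
    · refine general n k 3 0 4 hkn (by omega) (by omega) F hF hd ?_ ?_
      · left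
        intro B hB h7
        omega
      · right
        intro B hB h7
        have := hgA B hB
        omega
    · refine general n k (A.card - 2) (A.card - 4) (A.card - 1) hkn (by omega) (by omega) F hF hd
        ?_ ?_
      · right
        intro B hB h7
        have := hgA B hB
        have : B.card = A.card - 4 ∨ B.card = A.card - 4 + 1 := by omega
        exact this.imp_right fun h => ⟨hE, h⟩
      · right
        intro B hB h7
        have := hgA B hB
        have : B.card = A.card - 1 ∨ B.card = A.card - 1 + 1 := by omega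
        exact this.imp_right fun h => ⟨hE, h⟩

end Pool.Agent.H60.MB
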