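import Pool.Agent.H60.MB.Core

/-! The main inequality. -/

set_option autoImplicit false

namespace Pool.Agent.H60.MB

open Finset

variable {n : ℕ}

/-- comparability -/
def E (A X : Finset (Fin n)) : ℚ := if A ⊆ X ∨ X ⊆ A then 1 else 0

theorem E_low {m : ℕ} {A X : Finset (Fin n)} (hX : X.card = m) (hA : A.card ≤ m) :
    E A X = if A ⊆ X then 1 else 0 := by
  unfold E
  by_cases h : A ⊆ X
  · rw [if_pos (Or.inl h), if_pos h]
  · rw [if_neg h, if_neg]
    rintro (h1 | h1)
    · exact h h1
    · exact h (eq_of_subset_of_card_le h1 (by omega)).symm.subset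

theorem E_high {m : ℕ} {A X : Finset (Fin n)} (hX : X.card = m) (hA : m ≤ A.card) :
    E A X = if X ⊆ A then 1 else 0 := by
  unfold E
  by_cases h : X ⊆ A
  · rw [if_pos (Or.inr h), if_pos h]
  · rw [if_neg h, if_neg]
    rintro (h1 | h1)
    · exact h (eq_of_subset_of_card_le h1 (by omega)).symm.subset
    · exact h h1

theorem q_pos {s j : ℕ} (h1 : 1 ≤ j) (h2 : j ≤ s) : q s j = 0 := by
  rw [q_of_le h2, if_neg (by omega)]

theorem q_sub {s : ℕ} {A B : Finset (Fin n)} (h : (A \ B).card ≤ s) :
    q s (A \ B).card = if A ⊆ B then 1 else 0 := by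
  rw [q_of_le h]
  by_cases h4 : A ⊆ B
  · rw [if_pos h4, if_pos (by rw [card_eq_zero, sdiff_eq_empty_iff_subset]; exact h4)]
  · rw [if_neg h4, if_neg (by rw [card_eq_zero, sdiff_eq_empty_iff_subset]; exact h4)]

theorem one_le_sdiff {A B : Finset (Fin n)} (h : ¬ A ⊆ B) : 1 ≤ (A \ B).card := by
  rw [Nat.one_le_iff_ne_zero]
  intro h1
  rw [card_eq_zero, sdiff_eq_empty_iff_subset] at h1
  exact h h1

theorem main_inj {s m : ℕ} (hs : s ≤ m) (hm : m + s ≤ n) (F : Finset (Finset (Fin n)))
    (l : Finset (Fin n) → ℚ)
    (hac : ∀ A ∈ F, ∀ B ∈ F, A ⊆ B → A = B)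
    (hLL : ∀ A ∈ F, ∀ A' ∈ F, A.card < m → A'.card < m → (A \ A').card ≤ s ∨ A.card ≤ s)
    (hHH : ∀ C ∈ F, ∀ C' ∈ F, m < C.card → m < C'.card →
      (C \ C').card ≤ s ∨ n ≤ C'.card + s)
    (hM : ∀ A ∈ F, ∀ B ∈ F, A.card ≤ B.card → (A.card = m ∨ B.card = m) → (A \ B).card ≤ s)
    (hLH : ∀ A ∈ F, ∀ C ∈ F, A.card < m → m < C.card →
      (A \ C).card + (m - A.card) ≤ s ∨ n ≤ C.card + s)
    (hrel : Rel s m (fun X => ∑ A ∈ F, l A * E A X)) : ∀ A ∈ F, l A = 0 := by
  have hH : ∀ X ∈ powersetCard m (univ : Finset (Fin n)),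
      ∑ C ∈ F.filter (fun C => m < C.card), l C * (if X ⊆ C then (1 : ℚ) else 0) = 0 := by
    refine gram _ _ (fun C X => if X ⊆ C then (1 : ℚ) else 0) l ?_
    intro C hC
    rw [mem_filter] at hC
    refine Eq.trans ?_ (evalX hs hrel C)
    refine sum_congr rfl fun X hX => ?_
    rw [mem_powersetCard] at hX
    rw [sum_filter, sum_mul, sum_mul]
    refine sum_congr rfl fun A hA => ?_
    rcases lt_trichotomy A.card m with h | h | h
    · rw [if_neg (by omega), zero_mul, E_low hX.2 h.le]
      by_cases h1 : A ⊆ X
      · have h2 : ¬ A ⊆ C := by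
          intro h3
          have := hac A hA C hC.1 h3
          rw [this] at h
          omega
        have h3 : ¬ X ⊆ C := fun h4 => h2 (h1.trans h4)
        have h4 : (X \ C).card ≤ s := by
          have h5 : X \ C ⊆ (A \ C) ∪ (X \ A) := by
            intro x hx
            rw [mem_sdiff] at hx
            rw [mem_union, mem_sdiff, mem_sdiff]
            by_cases h6 : x ∈ A
            · exact Or.inl ⟨h6, hx.2⟩
            · exact Or.inr ⟨hx.1, h6⟩
          have h6 := (card_le_card h5).trans (card_union_le _ _)
          rw [card_sdiff_of_subset h1, hX.2] at h6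
          rcases hLH A hA C hC.1 h hC.2 with h7 | h7
          · exact h6.trans h7
          · exact card_sdiff_le' X h7
        rw [q_pos (one_le_sdiff h3) h4, mul_zero]
      · rw [if_neg h1, mul_zero, zero_mul]
    · rw [if_neg (by omega), zero_mul, E_low hX.2 h.le]
      by_cases h1 : A ⊆ X
      · have h2 : A = X := eq_of_subset_of_card_le h1 (by omega)
        have h3 : ¬ A ⊆ C := by
          intro h4
          have := hac A hA C hC.1 h4
          rw [this] at h
          omega
        rw [← h2, q_pos (one_le_sdiff h3) (hM A hA C hC.1 (by omega) (Or.inl h)), mul_zero]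
      · rw [if_neg h1, mul_zero, zero_mul]
    · rw [if_pos h, E_high hX.2 h.le]
      by_cases h1 : X ⊆ A
      · have h3 : (X \ C).card ≤ s := by
          rcases hHH A hA C hC.1 h hC.2 with h5 | h5
          · exact (card_le_card (sdiff_subset_sdiff h1 (Subset.refl _))).trans h5
          · exact card_sdiff_le' X h5
        rw [q_sub h3]
      · rw [if_neg h1, mul_zero, zero_mul, zero_mul]
  have hmu : ∀ X ∈ powersetCard m (univ : Finset (Fin n)), ∑ A ∈ F, l A * E A X =
      ∑ A ∈ F, (if A.card ≤ m then l A * E A X else 0) := by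
    intro X hX
    have h1 := hH X hX
    rw [mem_powersetCard] at hX
    rw [sum_filter] at h1
    have h2 : ∑ A ∈ F, l A * E A X = ∑ A ∈ F, (if A.card ≤ m then l A * E A X else 0) +
        ∑ A ∈ F, (if m < A.card then l A * (if X ⊆ A then (1 : ℚ) else 0) else 0) := by
      rw [← sum_add_distrib]
      refine sum_congr rfl fun A _ => ?_
      by_cases h : A.card ≤ m
      · rw [if_pos h, if_neg (by omega), add_zero]
      · rw [if_neg h, if_pos (by omega), E_high hX.2 (by omega), zero_add]
    rw [h2, h1, add_zero]
  have hL : ∀ X ∈ powersetCard m (univ : Finset (Fin n)),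
      ∑ A ∈ F.filter (fun A => A.card < m), l A * (if A ⊆ X then (1 : ℚ) else 0) = 0 := by
    refine gram _ _ (fun A X => if A ⊆ X then (1 : ℚ) else 0) l ?_
    intro A hA
    rw [mem_filter] at hA
    refine Eq.trans ?_ (evalD hs hrel A)
    refine sum_congr rfl fun X hX => ?_
    rw [hmu X hX]
    rw [mem_powersetCard] at hX
    rw [sum_filter, sum_mul, sum_mul]
    refine sum_congr rfl fun A' hA' => ?_
    rcases lt_trichotomy A'.card m with h | h | h
    · rw [if_pos h, if_pos h.le, E_low hX.2 h.le]
      by_cases h1 : A' ⊆ X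
      · have h3 : (A \ X).card ≤ s := by
          rcases hLL A hA.1 A' hA' hA.2 h with h5 | h5
          · exact (card_le_card (sdiff_subset_sdiff (Subset.refl _) h1)).trans h5
          · exact (card_le_card sdiff_subset).trans h5
        rw [q_sub h3]
      · rw [if_neg h1, mul_zero, zero_mul, zero_mul]
    · rw [if_neg (show ¬ A'.card < m by omega), zero_mul, if_pos h.le, E_low hX.2 h.le]
      by_cases h1 : A' ⊆ X
      · have h2 : A' = X := eq_of_subset_of_card_le h1 (by omega)
        have h3 : ¬ A ⊆ A' := by
          intro h4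
          have := hac A hA.1 A' hA' h4
          rw [← this] at h
          omega
        rw [← h2, q_pos (one_le_sdiff h3) (hM A hA.1 A' hA' (by omega) (Or.inr h)), mul_zero]
      · rw [if_neg h1, mul_zero, zero_mul]
    · rw [if_neg (show ¬ A'.card < m by omega), if_neg (show ¬ A'.card ≤ m by omega), zero_mul,
        zero_mul]
  have hmu2 : ∀ X ∈ powersetCard m (univ : Finset (Fin n)), ∑ A ∈ F, l A * E A X =
      if X ∈ F then l X else 0 := by
    intro X hX
    have h1 := hL X hX
    rw [hmu X hX]
    rw [mem_powersetCard] at hX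
    rw [sum_filter] at h1
    have h2 : ∑ A ∈ F, (if A.card ≤ m then l A * E A X else 0) =
        ∑ A ∈ F, (if A = X then l A else 0) +
        ∑ A ∈ F, (if A.card < m then l A * (if A ⊆ X then (1 : ℚ) else 0) else 0) := by
      rw [← sum_add_distrib]
      refine sum_congr rfl fun A _ => ?_
      rcases lt_trichotomy A.card m with h | h | h
      · have h3 : A ≠ X := by
          intro h4
          rw [h4] at h
          omega
        rw [if_pos h.le, if_pos h, if_neg h3, zero_add, E_low hX.2 h.le]
      · rw [if_pos h.le, if_neg (show ¬ A.card < m by omega), add_zero, E_low hX.2 h.le]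
        by_cases h3 : A = X
        · rw [if_pos h3.subset, if_pos h3, mul_one]
        · rw [if_neg h3, if_neg, mul_zero]
          intro h4
          exact h3 (eq_of_subset_of_card_le h4 (by omega))
      · have h3 : A ≠ X := by
          intro h4
          rw [h4] at h
          omega
        rw [if_neg (show ¬ A.card ≤ m by omega), if_neg (show ¬ A.card < m by omega), if_neg h3,
          add_zero]
    rw [h2, h1, add_zero, sum_ite_eq']
  intro B hB
  rcases lt_trichotomy B.card m with h | h | h
  · -- low sets: complements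
    have hcb : ∀ A : Finset (Fin n), A.card < m → (((n - s - A.card).choose (m - A.card) : ℕ) : ℚ) ≠ 0 := by
      intro A hA
      have h2 : 0 < (n - s - A.card).choose (m - A.card) := Nat.choose_pos (by omega)
      exact_mod_cast h2.ne'
    have h1 := indep (s := s) _ ((F.filter (fun A => A.card < m)).image compl)
      (fun Y => l Yᶜ * (((n - s - Yᶜ.card).choose (m - Yᶜ.card) : ℕ) : ℚ)) rfl
      (by
        intro C hC
        rw [mem_image] at hC
        obtain ⟨A, hA, rfl⟩ := hC
        rw [mem_filter] at hA
        rw [card_compl, Fintype.card_fin]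
        omega)
      (by
        intro C hC C' hC'
        rw [mem_image] at hC hC'
        obtain ⟨A, hA, rfl⟩ := hC
        obtain ⟨A', hA', rfl⟩ := hC'
        rw [mem_filter] at hA hA'
        have e : Aᶜ \ A'ᶜ = A' \ A := by
          ext x
          simp only [mem_sdiff, mem_compl, not_not]
          tauto
        rw [e]
        rcases hLL A' hA'.1 A hA.1 hA'.2 hA.2 with h5 | h5
        · exact Or.inl h5
        · right
          rw [card_compl, Fintype.card_fin]
          omega)
      (by
        intro C hC C' hC' hCC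
        rw [mem_image] at hC hC'
        obtain ⟨A, hA, rfl⟩ := hC
        obtain ⟨A', hA', rfl⟩ := hC'
        rw [mem_filter] at hA hA'
        rw [compl_subset_compl] at hCC
        rw [hac A' hA'.1 A hA.1 hCC])
      (by
        intro T hT
        rw [sum_image (fun x _ y _ hxy => compl_injective hxy)]
        simp only [compl_compl]
        have h2 : ∑ X ∈ powersetCard m (univ : Finset (Fin n)), (if X ⊆ Tᶜ then (1 : ℚ) else 0) *
            ∑ A ∈ F.filter (fun A => A.card < m), l A * (if A ⊆ X then (1 : ℚ) else 0) = 0 := by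
          apply sum_eq_zero
          intro X hX
          rw [hL X hX, mul_zero]
        simp_rw [mul_sum] at h2
        rw [sum_comm] at h2
        refine Eq.trans ?_ h2
        refine sum_congr rfl fun A hA => ?_
        rw [mem_filter] at hA
        have h3 := sum_between A Tᶜ m hA.2.le
        have h4 : ∑ X ∈ powersetCard m (univ : Finset (Fin n)),
            (if X ⊆ Tᶜ then (1 : ℚ) else 0) * (l A * (if A ⊆ X then (1 : ℚ) else 0)) =
            l A * ∑ X ∈ powersetCard m (univ : Finset (Fin n)),
              (if A ⊆ X then (if X ⊆ Tᶜ then (1 : ℚ) else 0) else 0) := by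
          rw [mul_sum]
          refine sum_congr rfl fun X _ => ?_
          by_cases h5 : A ⊆ X
          · rw [if_pos h5, if_pos h5, mul_one, mul_comm]
          · rw [if_neg h5, if_neg h5, mul_zero, mul_zero]
        rw [h4, h3, card_compl, Fintype.card_fin, hT]
        by_cases h5 : T ⊆ Aᶜ
        · rw [if_pos h5, if_pos (subset_compl_comm.1 h5)]
        · rw [if_neg h5, if_neg (fun h6 => h5 (subset_compl_comm.1 h6)), mul_zero])
      Bᶜ (mem_image_of_mem _ (mem_filter.2 ⟨hB, h⟩))
    simp only [compl_compl] at h1
    exact (mul_eq_zero.1 h1).resolve_right (hcb B h)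
  · -- the middle level
    have h1 := evalX hs hrel B
    have h2 : ∑ X ∈ powersetCard m (univ : Finset (Fin n)),
        (∑ A ∈ F, l A * E A X) * q s (X \ B).card = l B := by
      rw [sum_eq_single B]
      · rw [hmu2 B (mem_powersetCard.2 ⟨subset_univ _, h⟩), if_pos hB, sdiff_self]
        rw [q_of_le (by simp), if_pos (by simp), mul_one]
      · intro X hX hXB
        rw [hmu2 X hX]
        by_cases h3 : X ∈ F
        · rw [mem_powersetCard] at hX
          have h4 : ¬ X ⊆ B := fun h5 => hXB (hac X h3 B hB h5)
          rw [q_pos (one_le_sdiff h4) (hM X h3 B hB (by omega) (Or.inr h)), mul_zero]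
        · rw [if_neg h3, zero_mul]
      · intro h3
        exact absurd (mem_powersetCard.2 ⟨subset_univ _, h⟩) h3
    exact h2.symm.trans h1
  · -- high sets
    have hcb : ∀ A : Finset (Fin n), m < A.card → (((A.card - s).choose (m - s) : ℕ) : ℚ) ≠ 0 := by
      intro A hA
      have h2 : 0 < (A.card - s).choose (m - s) := Nat.choose_pos (by omega)
      exact_mod_cast h2.ne'
    have h1 := indep (s := s) _ (F.filter (fun C => m < C.card))
      (fun C => l C * (((C.card - s).choose (m - s) : ℕ) : ℚ)) rfl
      (by
        intro C hC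
        rw [mem_filter] at hC
        omega)
      (by
        intro C hC C' hC'
        rw [mem_filter] at hC hC'
        exact hHH C hC.1 C' hC'.1 hC.2 hC'.2)
      (by
        intro C hC C' hC' hCC
        rw [mem_filter] at hC hC'
        exact hac C hC.1 C' hC'.1 hCC)
      (by
        intro S hS
        have h2 : ∑ X ∈ powersetCard m (univ : Finset (Fin n)), (if S ⊆ X then (1 : ℚ) else 0) *
            ∑ C ∈ F.filter (fun C => m < C.card), l C * (if X ⊆ C then (1 : ℚ) else 0) = 0 := by
          apply sum_eq_zero
          intro X hX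
          rw [hH X hX, mul_zero]
        simp_rw [mul_sum] at h2
        rw [sum_comm] at h2
        refine Eq.trans ?_ h2
        refine sum_congr rfl fun C hC => ?_
        rw [mem_filter] at hC
        have h3 := sum_between S C m (by omega)
        have h4 : ∑ X ∈ powersetCard m (univ : Finset (Fin n)),
            (if S ⊆ X then (1 : ℚ) else 0) * (l C * (if X ⊆ C then (1 : ℚ) else 0)) =
            l C * ∑ X ∈ powersetCard m (univ : Finset (Fin n)),
              (if S ⊆ X then (if X ⊆ C then (1 : ℚ) else 0) else 0) := by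
          rw [mul_sum]
          refine sum_congr rfl fun X _ => ?_
          by_cases h5 : S ⊆ X
          · rw [if_pos h5, if_pos h5, one_mul]
          · rw [if_neg h5, if_neg h5, zero_mul, mul_zero]
        rw [h4, h3, hS]
        by_cases h5 : S ⊆ C
        · rw [if_pos h5, if_pos h5]
        · rw [if_neg h5, if_neg h5, mul_zero])
      B (mem_filter.2 ⟨hB, h⟩)
    exact (mul_eq_zero.1 h1).resolve_right (hcb B h)

theorem bound_one {s m : ℕ} (hs : s ≤ m) (hm : m + s ≤ n) (F : Finset (Finset (Fin n)))
    (hac : ∀ A ∈ F, ∀ B ∈ F, A ⊆ B → A = B)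
    (hLL : ∀ A ∈ F, ∀ A' ∈ F, A.card < m → A'.card < m → (A \ A').card ≤ s ∨ A.card ≤ s)
    (hHH : ∀ C ∈ F, ∀ C' ∈ F, m < C.card → m < C'.card →
      (C \ C').card ≤ s ∨ n ≤ C'.card + s)
    (hM : ∀ A ∈ F, ∀ B ∈ F, A.card ≤ B.card → (A.card = m ∨ B.card = m) → (A \ B).card ≤ s)
    (hLH : ∀ A ∈ F, ∀ C ∈ F, A.card < m → m < C.card →
      (A \ C).card + (m - A.card) ≤ s ∨ n ≤ C.card + s) :
    F.card ≤ n.choose s := by
  classical
  let v : F → (↥(powersetCard s (univ : Finset (Fin n))) → ℚ) := fun A S =>
    ∑ X ∈ powersetCard m (univ : Finset (Fin n)), (if S.1 ⊆ X then E A.1 X else 0)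
  have hv : LinearIndependent ℚ v := by
    rw [Fintype.linearIndependent_iff]
    intro g hg i
    have h1 := main_inj hs hm F (fun A => if h : A ∈ F then g ⟨A, h⟩ else 0) hac hLL hHH hM hLH ?_
      i.1 i.2
    · simpa using h1
    · intro S hS
      have h2 := congrFun hg ⟨S, mem_powersetCard.2 ⟨subset_univ _, hS⟩⟩
      rw [Finset.sum_apply] at h2
      refine Eq.trans ?_ h2
      have h3 : ∀ X ∈ powersetCard m (univ : Finset (Fin n)),
          (if S ⊆ X then ∑ A ∈ F, (if h : A ∈ F then g ⟨A, h⟩ else 0) * E A X else 0) =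
          ∑ A : F, g A * (if S ⊆ X then E A.1 X else 0) := by
        intro X _
        by_cases h4 : S ⊆ X
        · simp only [if_pos h4]
          rw [← Finset.sum_coe_sort F (fun A => (if h : A ∈ F then g ⟨A, h⟩ else 0) * E A X)]
          refine sum_congr rfl fun A _ => ?_
          rw [dif_pos A.2]
        · simp only [if_neg h4, mul_zero, sum_const_zero]
      rw [sum_congr rfl h3, sum_comm]
      refine sum_congr rfl fun A _ => ?_
      rw [← mul_sum]
      rfl
  have h := hv.fintype_card_le_finrank
  rw [Module.finrank_fintype_fun_eq_card, Fintype.card_coe, Fintype.card_coe, card_powersetCard,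
    card_univ, Fintype.card_fin] at h
  exact h

theorem bound {s m : ℕ} (hs : s ≤ m) (hm : m + s ≤ n) (F : Finset (Finset (Fin n)))
    (hac : ∀ A ∈ F, ∀ B ∈ F, A ⊆ B → A = B)
    (hLL : ∀ A ∈ F, ∀ A' ∈ F, A.card < m → A'.card < m → (A \ A').card ≤ s ∨ A.card ≤ s)
    (hHH : ∀ C ∈ F, ∀ C' ∈ F, m < C.card → m < C'.card →
      (C \ C').card ≤ s ∨ n ≤ C'.card + s)
    (hM : ∀ A ∈ F, ∀ B ∈ F, A.card ≤ B.card → (A.card = m ∨ B.card = m) → (A \ B).card ≤ s)
    (hLH : (∀ A ∈ F, ∀ C ∈ F, A.card < m → m < C.card →
        (A \ C).card + (m - A.card) ≤ s ∨ n ≤ C.card + s) ∨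
      (∀ A ∈ F, ∀ C ∈ F, A.card < m → m < C.card →
        (A \ C).card + (C.card - m) ≤ s ∨ A.card ≤ s)) :
    F.card ≤ n.choose s := by
  rcases hLH with hLH | hLH
  · exact bound_one hs hm F hac hLL hHH hM hLH
  · have hc : ∀ A : Finset (Fin n), A.card ≤ n := fun A => by
      have := card_le_univ A
      rwa [Fintype.card_fin] at this
    have hcc : ∀ A : Finset (Fin n), Aᶜ.card = n - A.card := fun A => by
      rw [card_compl, Fintype.card_fin]
    have e : ∀ A A' : Finset (Fin n), Aᶜ \ A'ᶜ = A' \ A := by
      intro A A'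
      ext x
      simp only [mem_sdiff, mem_compl, not_not]
      tauto
    have h1 := bound_one (s := s) (m := n - m) (by omega) (by omega) (F.image compl)
      (by
        intro C hC C' hC' hCC
        rw [mem_image] at hC hC'
        obtain ⟨A, hA, rfl⟩ := hC
        obtain ⟨A', hA', rfl⟩ := hC'
        rw [compl_subset_compl] at hCC
        rw [hac A' hA' A hA hCC])
      (by
        intro C hC C' hC' h1 h2
        rw [mem_image] at hC hC'
        obtain ⟨A, hA, rfl⟩ := hC
        obtain ⟨A', hA', rfl⟩ := hC'
        rw [hcc] at h1 h2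
        have := hc A
        have := hc A'
        rw [e, hcc]
        rcases hHH A' hA' A hA (by omega) (by omega) with h5 | h5
        · exact Or.inl h5
        · right
          omega)
      (by
        intro C hC C' hC' h1 h2
        rw [mem_image] at hC hC'
        obtain ⟨A, hA, rfl⟩ := hC
        obtain ⟨A', hA', rfl⟩ := hC'
        rw [hcc] at h1 h2
        have := hc A
        have := hc A'
        rw [e, hcc]
        rcases hLL A' hA' A hA (by omega) (by omega) with h5 | h5
        · exact Or.inl h5
        · right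
          omega)
      (by
        intro C hC C' hC' h1 h2
        rw [mem_image] at hC hC'
        obtain ⟨A, hA, rfl⟩ := hC
        obtain ⟨A', hA', rfl⟩ := hC'
        rw [hcc, hcc] at h1 h2
        have := hc A
        have := hc A'
        rw [e]
        exact hM A' hA' A hA (by omega) (by omega))
      (by
        intro C hC C' hC' h1 h2
        rw [mem_image] at hC hC'
        obtain ⟨A, hA, rfl⟩ := hC
        obtain ⟨A', hA', rfl⟩ := hC'
        rw [hcc] at h1 h2
        have := hc A
        have := hc A'
        rw [e, hcc, hcc]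
        have := hLH A' hA' A hA (by omega) (by omega)
        omega)
    rwa [card_image_of_injective _ compl_injective] at h1

end Pool.Agent.H60.MB
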